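import Pool.Agent.MP_3ee8cb_gt.DN.Spec

/-! The end of the proof: a conjugacy that respects the fibres comes from an isometry. -/

namespace Pool.Agent.MP_3ee8cb_gt.DN

variable [Dim]

open Set Filter Topology
open scoped RealInnerProductSpace

noncomputable section

variable {m m' : MF} {φ : V × V → V × V}

theorem en_diff (cf : CF m m' φ) {z : V × V} (hz : z.2 ≠ 0) : ContDiffAt ℝ 1 φ z :=
  cf.c1.contDiffAt ((isOpen_ne_fun continuous_snd continuous_const).mem_nhds hz)

theorem en_fr (cf : CF m m' φ) (x : V) {a : V} (ha : a ≠ 0) :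
    DifferentiableAt ℝ (fr φ x) a :=
  ((en_diff cf (z := (x, a)) ha).differentiableAt one_ne_zero).comp a
    ((differentiableAt_const x).prodMk differentiableAt_id)

/-- The foot does not depend on the direction. -/
theorem en_foot (ok : m'.OK) (cf : CF m m' φ)
    (hA : ∀ x a, ‖a‖ = 1 → m'.A (fr φ x) a = 0) (x : V) {a b : V} (ha : a ≠ 0) (hb : b ≠ 0) :
    (φ (x, a)).1 = (φ (x, b)).1 := by
  have h1 : ∀ c : V, ‖c‖ = 1 → HasFDerivAt (fun a => (φ (x, a)).1) (0 : V →L[ℝ] V) c := by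
    intro c hc
    have hc0 : c ≠ 0 := by rintro rfl; simp at hc
    have h2 := (en_fr cf x hc0).hasFDerivAt.fst
    have h3 : (ContinuousLinearMap.fst ℝ V V).comp (fderiv ℝ (fr φ x) c) = 0 := by
      ext1 e
      have h4 := congrArg (fun L : V →L[ℝ] V => m'.R (fr φ x c).1 (L e)) (hA x c hc)
      simpa [MF.A, MF.hor, ok.RS] using h4
    rwa [h3] at h2
  have h2 : ∀ c : V, c ≠ 0 → HasFDerivAt (fun a => (φ (x, a)).1) (0 : V →L[ℝ] V) c := by
    intro c hc
    have hn : ‖c‖⁻¹ ≠ 0 := inv_ne_zero (norm_ne_zero_iff.2 hc)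
    have h3 := (h1 (‖c‖⁻¹ • c) (norm_smul_inv_norm hc)).comp c
      ((hasFDerivAt_id c).const_smul ‖c‖⁻¹)
    rw [ContinuousLinearMap.zero_comp] at h3
    refine h3.congr_of_eventuallyEq ?_
    filter_upwards [isOpen_ne.mem_nhds hc] with d hd
    simp only [Function.comp_apply, cf.hom _ x d hn hd]
  have hc : IsPreconnected ({0}ᶜ : Set V) :=
    (isConnected_compl_singleton_of_one_lt_rank
      (by rw [← Module.finrank_eq_rank, finrank_euclideanSpace_fin]
          exact Nat.one_lt_cast.2 (by unfold dm; omega)) 0).isPreconnected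
  exact isOpen_compl_singleton.is_const_of_fderiv_eq_zero (𝕜 := ℝ) hc
    (fun c hc => (h2 c hc).differentiableAt.differentiableWithinAt)
    (fun c hc => (h2 c hc).fderiv) ha hb

theorem sEND : SEND := by
  intro g h C C' Γ Λ _ _ _ _ Φ Ψ ρ F0 _ _ _ _ _ _ _ m m' O O' φ lg ok jac ok' _ lk lk' _ _ _ cf
    eqv hA
  obtain ⟨e, he⟩ := exists_ne (0 : V)
  set F : V → V := fun x => (φ (x, e)).1 with hF
  have cF : ContDiff ℝ 1 F := contDiff_iff_contDiffAt.2 fun x =>
    ((en_diff cf (z := (x, e)) he).comp x (contDiffAt_id.prodMk contDiffAt_const)).fst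
  have ft : ∀ z : V × V, z.2 ≠ 0 → (φ z).1 = F z.1 := fun z hz =>
    en_foot ok' cf hA z.1 hz he
  have dF : ∀ x a, a ≠ 0 → m'.S (F x) (fderiv ℝ F x (m.R x a)) = (φ (x, a)).2 := by
    intro x a ha
    have h1 := (ok.ode (x, a) 0).fst
    have h2 := (ok'.ode (φ (x, a)) 0).fst
    simp only [ok.zero, ok'.zero, MF.vf] at h1 h2
    have h3 : HasDerivAt (fun s => F (m.Z s (x, a)).1) (fderiv ℝ F x (m.R x a)) 0 := by
      have h4 : HasFDerivAt F (fderiv ℝ F x) (m.Z 0 (x, a)).1 := by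
        rw [ok.zero]; exact (cF.differentiable one_ne_zero x).hasFDerivAt
      exact h4.comp_hasDerivAt 0 h1
    have h5 : (fun s => F (m.Z s (x, a)).1) = fun s => (m'.Z s (φ (x, a))).1 := by
      funext s
      have h6 : (m.Z s (x, a)).2 ≠ 0 := by
        rw [← norm_ne_zero_iff, jac.norm]; exact norm_ne_zero_iff.2 ha
      rw [← ft _ h6, cf.flow s _ ha]
    rw [h5] at h3
    rw [h3.unique h2, ft _ ha, ok'.SR]
  have nL : ∀ x a, ‖m'.S (F x) (fderiv ℝ F x (m.R x a))‖ = ‖a‖ := by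
    intro x a
    rcases eq_or_ne a 0 with rfl | ha
    · simp
    · rw [dF x a ha, cf.norm _ ha]
  let L : V → V →ₗᵢ[ℝ] V := fun x =>
    ⟨(((m'.S (F x)).comp (fderiv ℝ F x)).comp (m.R x)).toLinearMap, nL x⟩
  have hL : ∀ x a, L x a = m'.S (F x) (fderiv ℝ F x (m.R x a)) := fun _ _ => rfl
  refine ⟨F, ⟨fun x x' hx => ?_, fun y => ?_⟩, cF, fun x u v => ?_, fun γ x => ?_⟩
  · obtain ⟨a, ha⟩ := (LinearMap.injective_iff_surjective (f := (L x').toLinearMap)).1
      (L x').injective (L x e)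
    have ha' : L x' a = L x e := ha
    have ha0 : a ≠ 0 := by
      rw [← norm_ne_zero_iff, ← (L x').norm_map, ha', (L x).norm_map]
      exact norm_ne_zero_iff.2 he
    have h1 : φ (x, e) = φ (x', a) := Prod.ext (by rw [ft (x', a) ha0]; exact hx)
      (by rw [← dF x e he, ← dF x' a ha0, ← hL, ← hL, ha'])
    exact congrArg Prod.fst (cf.inj (show (x, e).2 ≠ 0 from he) (show (x', a).2 ≠ 0 from ha0) h1)
  · obtain ⟨z, hz, h1⟩ := cf.surj (y, e) he
    exact ⟨z.1, by rw [← ft z hz, h1]⟩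
  · have h1 := (L x).inner_map_map (m.S x u) (m.S x v)
    rw [hL, hL, ok.RS, ok.RS, ← lk'.orth (F x), ok'.RS, ok'.RS, ← lk.orth x, ok.RS, ok.RS] at h1
    exact h1
  · have h1 : O γ x e ≠ 0 := by
      rw [← norm_ne_zero_iff, (O γ x).norm_map]; exact norm_ne_zero_iff.2 he
    have h2 := congrArg Prod.fst (eqv γ (x, e) he)
    rw [ft _ h1] at h2
    exact h2

end

end Pool.Agent.MP_3ee8cb_gt.DN
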